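import Pool.Agent.Helper35.VW.BoxSum

/-!
# VW-B1: integer points of a box with residues in given cones
-/

set_option autoImplicit false

open Polynomial NumberField

namespace Pool.Agent.Helper12.VW

namespace BoxB1

open Finset

/-- Partial fractions of `1 / q` modulo one. -/
theorem exists_alpha (P : Finset ℕ) (hP : ∀ p ∈ P, p.Prime) :
    ∃ (α : ℕ → ℤ) (l : ℤ), (∀ p ∈ P, ¬ (p : ℤ) ∣ α p) ∧
      ∑ p ∈ P, (α p : ℂ) / p = (1 + l * (∏ p ∈ P, (p : ℂ))) / (∏ p ∈ P, (p : ℂ)) := by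
  classical
  have hcop : ∀ p ∈ P, Nat.Coprime (∏ p' ∈ P.erase p, p') p := by
    intro p hp
    apply Nat.Coprime.prod_left
    intro p' hp'
    rw [Finset.mem_erase] at hp'
    exact (Nat.coprime_primes (hP p' hp'.2) (hP p hp)).2 hp'.1
  have hex : ∀ p : ℕ, ∃ z : ℤ, p ∈ P → (p : ℤ) ∣ z * (∏ p' ∈ P.erase p, (p' : ℤ)) - 1 := by
    intro p
    by_cases hp : p ∈ P
    · have h := (Nat.isCoprime_iff_coprime.2 (hcop p hp))
      obtain ⟨a, b, hab⟩ := h
      refine ⟨a, fun _ => ⟨-b, ?_⟩⟩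
      push_cast at hab
      linarith
    · exact ⟨0, fun h => absurd h hp⟩
  choose α hα using hex
  -- the congruence modulo the product
  have hdvd : (∏ p ∈ P, (p : ℤ)) ∣ ∑ p ∈ P, α p * (∏ p' ∈ P.erase p, (p' : ℤ)) - 1 := by
    apply Finset.prod_dvd_of_coprime
    · intro p hp p' hp' hne
      exact Nat.isCoprime_iff_coprime.2 ((Nat.coprime_primes (hP p hp) (hP p' hp')).2 hne)
    · intro p hp
      rw [← Finset.add_sum_erase _ _ hp]
      have h1 : (p : ℤ) ∣ ∑ p' ∈ P.erase p, α p' * ∏ p'' ∈ P.erase p', (p'' : ℤ) := by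
        apply Finset.dvd_sum
        intro p' hp'
        rw [Finset.mem_erase] at hp'
        apply Dvd.dvd.mul_left
        apply Finset.dvd_prod_of_mem (fun p : ℕ => (p : ℤ))
        rw [Finset.mem_erase]
        exact ⟨hp'.1.symm, hp⟩
      have h2 := hα p hp
      have h3 := dvd_add h2 h1
      rw [add_sub_right_comm]
      exact h3
  obtain ⟨l, hl⟩ := hdvd
  refine ⟨α, l, ?_, ?_⟩
  · intro p hp hd
    have h1 := hα p hp
    have h2 : (p : ℤ) ∣ 1 := by
      have h3 := dvd_sub (Dvd.dvd.mul_right hd (∏ p' ∈ P.erase p, (p' : ℤ))) h1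
      rw [sub_sub_cancel] at h3
      exact h3
    have h4 := Int.natCast_dvd_natCast.1 (by simpa using h2 : (p : ℤ) ∣ ((1 : ℕ) : ℤ))
    exact (hP p hp).one_lt.ne' (Nat.dvd_one.1 h4)
  · have hne : ∀ p ∈ P, (p : ℂ) ≠ 0 := fun p hp => by exact_mod_cast (hP p hp).ne_zero
    have hq : (∏ p ∈ P, (p : ℂ)) ≠ 0 := Finset.prod_ne_zero_iff.2 hne
    rw [eq_div_iff hq, Finset.sum_mul]
    have h1 : ∀ p ∈ P, (α p : ℂ) / p * (∏ p' ∈ P, (p' : ℂ)) =
        α p * ∏ p' ∈ P.erase p, (p' : ℂ) := by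
      intro p hp
      rw [← Finset.mul_prod_erase _ _ hp]
      have := hne p hp
      field_simp
    rw [Finset.sum_congr rfl h1]
    have h2 : (∑ p ∈ P, α p * (∏ p' ∈ P.erase p, (p' : ℤ))) = 1 + l * ∏ p ∈ P, (p : ℤ) := by
      linarith
    have h3 := congrArg (fun z : ℤ => (z : ℂ)) h2
    push_cast at h3
    exact h3

/-- The product of the primes of `P` which divide all the coordinates of `w` is small. -/
theorem prod_dvd_le (P : Finset ℕ) (hP : ∀ p ∈ P, p.Prime) {N : ℕ} (w : Fin N → ℤ) (hw : w ≠ 0)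
    (M : ℕ) (hM : ∀ i, |w i| < M) :
    ∏ p ∈ P, (if (∀ i, (p : ℤ) ∣ w i) then (p : ℝ) else 1) ≤ M := by
  classical
  obtain ⟨i, hi⟩ : ∃ i, w i ≠ 0 := by
    by_contra hcon
    push Not at hcon
    exact hw (funext hcon)
  rw [← Finset.prod_filter]
  have hd : (∏ p ∈ P.filter (fun p : ℕ => ∀ i, (p : ℤ) ∣ w i), (p : ℤ)) ∣ w i := by
    apply Finset.prod_dvd_of_coprime
    · intro p hp p' hp' hne
      have hp1 := (Finset.mem_filter.1 hp).1
      have hp2 := (Finset.mem_filter.1 hp').1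
      exact Nat.isCoprime_iff_coprime.2 ((Nat.coprime_primes (hP p hp1) (hP p' hp2)).2 hne)
    · intro p hp
      exact (Finset.mem_filter.1 hp).2 i
  have h1 := Int.le_of_dvd (abs_pos.2 hi) ((dvd_abs _ _).2 hd)
  have h2 : (∏ p ∈ P.filter (fun p : ℕ => ∀ i, (p : ℤ) ∣ w i), (p : ℤ)) ≤ (M : ℤ) :=
    h1.trans (hM i).le
  have h3 : ((∏ p ∈ P.filter (fun p : ℕ => ∀ i, (p : ℤ) ∣ w i), (p : ℤ) : ℤ) : ℝ) ≤ ((M : ℤ) : ℝ) :=
    Int.cast_le.2 h2
  push_cast at h3
  exact h3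

section main

variable {n : ℕ} (P : Finset ℕ) [hne : ∀ p : P, Fact (p : ℕ).Prime]
  (S : ∀ p : ℕ, Set (Fin (n + 1) → ZMod p)) (α : ℕ → ℤ)

open Classical in
/-- The residues in the cone. -/
noncomputable def SF (p : P) : Finset (Fin (n + 1) → ZMod (p : ℕ)) :=
  Finset.univ.filter (fun v => v ∈ S p)

/-- The set of all families of residues. -/
noncomputable def SG : Finset (∀ p : P, Fin (n + 1) → ZMod (p : ℕ)) := Fintype.piFinset (SF P S)

/-- The characters. -/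
noncomputable def chi (w : Fin (n + 1) → ℤ) (v : ∀ p : P, Fin (n + 1) → ZMod (p : ℕ)) : ℂ :=
  ∏ p : P, ZMod.stdAddChar (∑ i, ((α p * w i : ℤ) : ZMod (p : ℕ)) * v p i)

/-- The exponential sum. -/
noncomputable def TT (w : Fin (n + 1) → ℤ) : ℂ := ∑ v ∈ SG P S, chi P α w v

theorem TT_eq (w : Fin (n + 1) → ℤ) :
    TT P S α w = ∏ p : P, tS (p : ℕ) (SF P S p) (fun i => ((α p * w i : ℤ) : ZMod (p : ℕ))) := by
  unfold TT SG chi tS
  rw [Finset.prod_univ_sum]

theorem chi_sub (w w' : Fin (n + 1) → ℤ) (v : ∀ p : P, Fin (n + 1) → ZMod (p : ℕ)) :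
    chi P α w v * (starRingEnd ℂ) (chi P α w' v) = chi P α (w - w') v := by
  unfold chi
  rw [map_prod, ← Finset.prod_mul_distrib]
  apply Finset.prod_congr rfl
  intro p _
  rw [← AddChar.map_neg_eq_conj, ← AddChar.map_add_eq_mul]
  congr 1
  rw [← Finset.sum_neg_distrib, ← Finset.sum_add_distrib]
  apply Finset.sum_congr rfl
  intro i _
  simp only [Pi.sub_apply]
  push_cast
  ring

/-- Residues of an integer vector. -/
def res (a : Fin (n + 1) → ℤ) : ∀ p : P, Fin (n + 1) → ZMod (p : ℕ) := fun p i => (a i : ZMod p)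

theorem chi_res {l : ℤ}
    (hα : ∑ p ∈ P, (α p : ℂ) / p = (1 + l * (∏ p ∈ P, (p : ℂ))) / (∏ p ∈ P, (p : ℂ)))
    (w a : Fin (n + 1) → ℤ) :
    chi P α w (res P a) =
      Complex.exp (2 * Real.pi * Complex.I * ((∑ i, w i * a i : ℤ) : ℂ) / (∏ p ∈ P, (p : ℂ))) := by
  have hpne : ∀ p ∈ P, (p : ℂ) ≠ 0 := fun p hp => by
    have := (hne ⟨p, hp⟩).out.ne_zero
    exact_mod_cast this
  have hq : (∏ p ∈ P, (p : ℂ)) ≠ 0 := Finset.prod_ne_zero_iff.2 hpne
  set m : ℤ := ∑ i, w i * a i with hm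
  have h1 : chi P α w (res P a) = ∏ p : P, Complex.exp (2 * Real.pi * Complex.I *
      ((α p * m : ℤ) : ℂ) / ((p : ℕ) : ℂ)) := by
    unfold chi
    apply Finset.prod_congr rfl
    intro p _
    have h2 : ∑ i, ((α p * w i : ℤ) : ZMod (p : ℕ)) * res P a p i = ((α p * m : ℤ) : ZMod (p : ℕ)) := by
      rw [hm, Finset.mul_sum]
      push_cast
      apply Finset.sum_congr rfl
      intro i _
      simp only [res]
      ring
    rw [h2, ZMod.stdAddChar_coe]
  rw [h1, ← Complex.exp_sum, Finset.sum_coe_sort P (fun p : ℕ => 2 * Real.pi * Complex.I *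
      ((α p * m : ℤ) : ℂ) / (p : ℂ))]
  have h3 : ∑ p ∈ P, 2 * Real.pi * Complex.I * ((α p * m : ℤ) : ℂ) / (p : ℂ) =
      2 * Real.pi * Complex.I * m / (∏ p ∈ P, (p : ℂ)) + ((l * m : ℤ) : ℂ) * (2 * Real.pi * Complex.I) := by
    have h4 : ∀ p ∈ P, 2 * Real.pi * Complex.I * ((α p * m : ℤ) : ℂ) / (p : ℂ) =
        2 * Real.pi * Complex.I * m * ((α p : ℂ) / p) := by
      intro p _
      push_cast
      ring
    rw [Finset.sum_congr rfl h4, ← Finset.mul_sum, hα]
    push_cast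
    field_simp
  rw [h3, Complex.exp_add, Complex.exp_int_mul_two_pi_mul_I, mul_one]

/-- Bound of the exponential sum. -/
theorem TT_bound (c : ℕ) (k : ℕ → ℕ) (hα : ∀ p ∈ P, ¬ (p : ℤ) ∣ α p)
    (h1 : ∀ p ∈ P, ∀ v ∈ S p, ∀ t : ZMod p, t ≠ 0 → t • v ∈ S p)
    (h2 : ∀ p ∈ P, (S p).ncard * p ^ (k p) ≤ c * p ^ (n + 1))
    (h3 : ∀ p ∈ P, ∀ w : Fin (n + 1) → ZMod p, w ≠ 0 →
        {v ∈ S p | ∑ i, w i * v i = 0}.ncard * p ^ (k p) ≤ c * p ^ n)
    (w : Fin (n + 1) → ℤ) :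
    ‖TT P S α w‖ * ∏ p ∈ P, (p : ℝ) ^ (k p) ≤
      (4 * c + 1) ^ P.card * (∏ p ∈ P, (p : ℝ)) ^ n *
        ∏ p ∈ P, (if (∀ i, (p : ℤ) ∣ w i) then (p : ℝ) else 1) := by
  classical
  rw [TT_eq, norm_prod, ← Finset.prod_coe_sort P (fun p : ℕ => (p : ℝ) ^ (k p)),
    ← Finset.prod_coe_sort P (fun p : ℕ => (p : ℝ)),
    ← Finset.prod_coe_sort P (fun p : ℕ => (if (∀ i, (p : ℤ) ∣ w i) then (p : ℝ) else 1)),
    ← Finset.prod_mul_distrib, ← Finset.prod_pow, mul_assoc, ← Finset.prod_mul_distrib]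
  have hcard : ((4 : ℝ) * c + 1) ^ P.card = ∏ _p : P, ((4 : ℝ) * c + 1) := by
    rw [Finset.prod_const, Finset.card_univ, Fintype.card_coe]
  rw [hcard, ← Finset.prod_mul_distrib]
  apply Finset.prod_le_prod
  · intro p _
    positivity
  · intro p _
    have hSF : ((SF P S p).card : ℕ) = (S p).ncard := by
      unfold SF
      rw [Set.ncard_eq_toFinset_card' (S p)]
      congr 1
      ext v
      simp
    have hloc := local_bound n c (p : ℕ) (k p) (SF P S p)
      (fun v hv t ht => by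
        simp only [SF, Finset.mem_filter, Finset.mem_univ, true_and] at hv ⊢
        exact h1 p p.2 v hv t ht)
      (by rw [hSF]; exact h2 p p.2)
      (fun w hw => by
        have h4 := h3 p p.2 w hw
        have h5 : ((SF P S p).filter (fun v => ∑ i, w i * v i = 0)).card =
            {v ∈ S p | ∑ i, w i * v i = 0}.ncard := by
          rw [Set.ncard_eq_toFinset_card']
          congr 1
          ext v
          simp [SF]
        rw [h5]
        exact h4)
      (fun i => ((α p * w i : ℤ) : ZMod (p : ℕ)))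
    have hiff : ((fun i => ((α p * w i : ℤ) : ZMod (p : ℕ))) = 0) ↔ ∀ i, ((p : ℕ) : ℤ) ∣ w i := by
      constructor
      · intro h i
        have h4 := congrFun h i
        simp only [Pi.zero_apply] at h4
        rw [ZMod.intCast_zmod_eq_zero_iff_dvd] at h4
        rcases (Nat.prime_iff_prime_int.1 (hne p).out).dvd_or_dvd h4 with h5 | h5
        · exact absurd h5 (hα p p.2)
        · exact h5
      · intro h
        funext i
        simp only [Pi.zero_apply]
        rw [ZMod.intCast_zmod_eq_zero_iff_dvd]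
        exact Dvd.dvd.mul_left (h i) _
    simp only [hiff] at hloc
    rw [mul_assoc] at hloc
    exact hloc

/-- The set of the shifts. -/
def JJ (n M : ℕ) : Finset (Fin (n + 1) → ℕ) := Fintype.piFinset (fun _ => Finset.range M)

/-- An integer vector. -/
def iv {n : ℕ} (j : Fin (n + 1) → ℕ) : Fin (n + 1) → ℤ := fun i => (j i : ℤ)

theorem card_JJ (n M : ℕ) : (JJ n M).card = M ^ (n + 1) := by
  unfold JJ
  rw [Fintype.card_piFinset]
  simp

/-- The kernel. -/
noncomputable def EE (M : ℕ) (v : ∀ p : P, Fin (n + 1) → ZMod (p : ℕ)) : ℂ :=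
  ∑ j ∈ JJ n M, chi P α (iv j) v

/-- The kernel is large on the box. -/
theorem EE_ge {l : ℤ}
    (hα : ∑ p ∈ P, (α p : ℂ) / p = (1 + l * (∏ p ∈ P, (p : ℂ))) / (∏ p ∈ P, (p : ℂ)))
    (H M : ℕ) (hM : (n + 1) * (M - 1) * H * 8 ≤ ∏ p ∈ P, p) (a : Fin (n + 1) → ℤ)
    (ha : a ∈ Box n H) : (M : ℝ) ^ (n + 1) / 2 ≤ ‖EE P α M (res P a)‖ := by
  have hq0 : 0 < ∏ p ∈ P, p := Finset.prod_pos fun p hp => (hne ⟨p, hp⟩).out.pos
  have hqR : (0 : ℝ) < ((∏ p ∈ P, p : ℕ) : ℝ) := by exact_mod_cast hq0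
  have hterm : ∀ j ∈ JJ n M, (1 : ℝ) / 2 ≤ (chi P α (iv j) (res P a)).re := by
    intro j hj
    have hj' : ∀ i, j i < M := by
      intro i
      have := Fintype.mem_piFinset.1 hj i
      exact Finset.mem_range.1 this
    have ha' : ∀ i, |a i| ≤ H := by
      intro i
      have := Fintype.mem_piFinset.1 ha i
      rw [Finset.mem_Icc] at this
      exact abs_le.2 this
    rw [chi_res P α hα]
    set m : ℤ := ∑ i, iv j i * a i with hm
    have hmabs : |m| ≤ ((n + 1) * (M - 1) * H : ℕ) := by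
      calc |m| ≤ ∑ i, |iv j i * a i| := Finset.abs_sum_le_sum_abs _ _
        _ ≤ ∑ _i : Fin (n + 1), (((M - 1) * H : ℕ) : ℤ) := by
            apply Finset.sum_le_sum
            intro i _
            rw [abs_mul]
            push_cast
            have h1 : |iv j i| ≤ ((M - 1 : ℕ) : ℤ) := by
              unfold iv
              rw [abs_of_nonneg (Int.natCast_nonneg _)]
              have := hj' i
              exact_mod_cast (by omega : j i ≤ M - 1)
            exact mul_le_mul h1 (ha' i) (abs_nonneg _) (Int.natCast_nonneg _)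
        _ = ((n + 1) * (M - 1) * H : ℕ) := by
            rw [Finset.sum_const, Finset.card_univ, Fintype.card_fin, nsmul_eq_mul]
            push_cast
            ring
    have hmR : |(m : ℝ)| * 8 ≤ ((∏ p ∈ P, p : ℕ) : ℝ) := by
      have h1 : |m| * 8 ≤ ((∏ p ∈ P, p : ℕ) : ℤ) := by
        calc |m| * 8 ≤ ((n + 1) * (M - 1) * H : ℕ) * 8 := by
              exact mul_le_mul_of_nonneg_right hmabs (by norm_num)
          _ = (((n + 1) * (M - 1) * H * 8 : ℕ) : ℤ) := by push_cast; ring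
          _ ≤ _ := by exact_mod_cast hM
      exact_mod_cast h1
    have hexp : 2 * (Real.pi : ℂ) * Complex.I * (m : ℂ) / (∏ p ∈ P, (p : ℂ)) =
        ((2 * Real.pi * (m / ((∏ p ∈ P, p : ℕ) : ℝ)) : ℝ) : ℂ) * Complex.I := by
      push_cast
      ring
    rw [hexp, Complex.exp_ofReal_mul_I_re]
    have habs : |2 * Real.pi * (m / ((∏ p ∈ P, p : ℕ) : ℝ))| ≤ Real.pi / 3 := by
      rw [abs_mul, abs_div, abs_of_pos (by positivity : (0 : ℝ) < 2 * Real.pi), abs_of_pos hqR]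
      have h1 : |(m : ℝ)| / ((∏ p ∈ P, p : ℕ) : ℝ) ≤ 1 / 8 := by
        rw [div_le_div_iff₀ hqR (by norm_num)]
        linarith
      have hpi := Real.pi_pos
      calc 2 * Real.pi * (|(m : ℝ)| / ((∏ p ∈ P, p : ℕ) : ℝ)) ≤ 2 * Real.pi * (1 / 8) := by gcongr
        _ ≤ Real.pi / 3 := by linarith
    rw [← Real.cos_abs, ← Real.cos_pi_div_three]
    apply Real.cos_le_cos_of_nonneg_of_le_pi (abs_nonneg _) _ habs
    have := Real.pi_pos
    linarith
  have h1 : (M : ℝ) ^ (n + 1) / 2 ≤ (EE P α M (res P a)).re := by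
    unfold EE
    rw [Complex.re_sum]
    calc (M : ℝ) ^ (n + 1) / 2 = ∑ _j ∈ JJ n M, (1 : ℝ) / 2 := by
          rw [Finset.sum_const, card_JJ, nsmul_eq_mul]
          push_cast
          ring
      _ ≤ _ := Finset.sum_le_sum hterm
  exact h1.trans (Complex.re_le_norm _)

/-- The second moment. -/
theorem sum_sq_EE (M : ℕ) :
    ∑ v ∈ SG P S, ‖EE P α M v‖ ^ 2 ≤
      ∑ j ∈ JJ n M, ∑ j' ∈ JJ n M, ‖TT P S α (iv j - iv j')‖ := by
  have h1 : ((∑ v ∈ SG P S, ‖EE P α M v‖ ^ 2 : ℝ) : ℂ) =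
      ∑ j ∈ JJ n M, ∑ j' ∈ JJ n M, TT P S α (iv j - iv j') := by
    have h2 : ∀ v ∈ SG P S, ((‖EE P α M v‖ ^ 2 : ℝ) : ℂ) =
        ∑ j ∈ JJ n M, ∑ j' ∈ JJ n M, chi P α (iv j - iv j') v := by
      intro v _
      have h3 : ((‖EE P α M v‖ ^ 2 : ℝ) : ℂ) = EE P α M v * (starRingEnd ℂ) (EE P α M v) := by
        rw [Complex.mul_conj, Complex.normSq_eq_norm_sq]
      rw [h3]
      unfold EE
      rw [map_sum, Finset.sum_mul_sum]
      apply Finset.sum_congr rfl
      intro j _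
      apply Finset.sum_congr rfl
      intro j' _
      rw [chi_sub]
    rw [Complex.ofReal_sum, Finset.sum_congr rfl h2, Finset.sum_comm]
    apply Finset.sum_congr rfl
    intro j _
    rw [Finset.sum_comm]
    rfl
  have h4 : (0 : ℝ) ≤ ∑ v ∈ SG P S, ‖EE P α M v‖ ^ 2 := by positivity
  calc ∑ v ∈ SG P S, ‖EE P α M v‖ ^ 2
      = ‖((∑ v ∈ SG P S, ‖EE P α M v‖ ^ 2 : ℝ) : ℂ)‖ := by
        rw [Complex.norm_real, Real.norm_eq_abs, abs_of_nonneg h4]
    _ = ‖∑ j ∈ JJ n M, ∑ j' ∈ JJ n M, TT P S α (iv j - iv j')‖ := by rw [h1]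
    _ ≤ ∑ j ∈ JJ n M, ‖∑ j' ∈ JJ n M, TT P S α (iv j - iv j')‖ := norm_sum_le _ _
    _ ≤ ∑ j ∈ JJ n M, ∑ j' ∈ JJ n M, ‖TT P S α (iv j - iv j')‖ :=
        Finset.sum_le_sum fun j _ => norm_sum_le _ _

/-- The fibres of the residue map on the box. -/
theorem card_fiber_le (H : ℕ) (v : ∀ p : P, Fin (n + 1) → ZMod (p : ℕ))
    (A : Finset (Fin (n + 1) → ℤ)) (hA : A ⊆ Box n H) (hv : ∀ a ∈ A, res P a = v) :
    A.card ≤ (2 * H / (∏ p ∈ P, p) + 1) ^ (n + 1) := by
  classical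
  set q : ℕ := ∏ p ∈ P, p with hq
  have hq0 : 0 < q := Finset.prod_pos fun p hp => (hne ⟨p, hp⟩).out.pos
  have hcard : (2 * H / q + 1) ^ (n + 1) = (JJ n (2 * H / q + 1)).card := (card_JJ _ _).symm
  rw [hcard]
  have hbox : ∀ a ∈ A, ∀ i, -(H : ℤ) ≤ a i ∧ a i ≤ H := by
    intro a ha i
    have := Fintype.mem_piFinset.1 (hA ha) i
    rwa [Finset.mem_Icc] at this
  apply Finset.card_le_card_of_injOn (fun (a : Fin (n + 1) → ℤ) (i : Fin (n + 1)) =>
    ((a i + (H : ℤ)) / (q : ℤ)).toNat)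
  · intro a ha
    simp only [Finset.mem_coe] at ha ⊢
    unfold JJ
    rw [Fintype.mem_piFinset]
    intro i
    rw [Finset.mem_range]
    have h1 := hbox a ha i
    have h2 : 0 ≤ (a i + H) / (q : ℤ) := Int.ediv_nonneg (by linarith) (by positivity)
    have h3 : (a i + H) / (q : ℤ) ≤ ((2 * H / q : ℕ) : ℤ) := by
      push_cast
      exact Int.ediv_le_ediv (by exact_mod_cast hq0) (by linarith)
    omega
  · intro a ha a' ha' h
    simp only [Finset.mem_coe] at ha ha'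
    funext i
    have h1 := hbox a ha i
    have h1' := hbox a' ha' i
    have h2 := congrFun h i
    simp only at h2
    have h3 : 0 ≤ (a i + H) / (q : ℤ) := Int.ediv_nonneg (by linarith) (by positivity)
    have h3' : 0 ≤ (a' i + H) / (q : ℤ) := Int.ediv_nonneg (by linarith) (by positivity)
    have h4 : (a i + H) / (q : ℤ) = (a' i + H) / (q : ℤ) := by omega
    have hdvd : (q : ℤ) ∣ (a i + H) - (a' i + H) := by
      have h5 : (∏ p ∈ P, (p : ℤ)) ∣ (a i + H) - (a' i + H) := by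
        apply Finset.prod_dvd_of_coprime
        · intro p hp p' hp' hne'
          exact Nat.isCoprime_iff_coprime.2
            ((Nat.coprime_primes (hne ⟨p, hp⟩).out (hne ⟨p', hp'⟩).out).2 hne')
        · intro p hp
          have h6 : res P a ⟨p, hp⟩ i = res P a' ⟨p, hp⟩ i := by rw [hv a ha, hv a' ha']
          simp only [res] at h6
          have h7 := (ZMod.intCast_eq_intCast_iff_dvd_sub (a' i) (a i) p).1 h6.symm
          have h8 : (a i + H) - (a' i + H) = a i - a' i := by ring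
          rw [h8]
          exact h7
      rw [hq]
      push_cast
      exact h5
    have h5 : (a i + H) % (q : ℤ) = (a' i + H) % (q : ℤ) :=
      Int.emod_eq_emod_iff_emod_sub_eq_zero.2 (Int.emod_eq_zero_of_dvd hdvd)
    have h6 := Int.mul_ediv_add_emod (a i + H) q
    have h7 := Int.mul_ediv_add_emod (a' i + H) q
    rw [h4, h5] at h6
    linarith

end main

/-- The numerical end of the proof. -/
theorem final_arith (n H q M mult : ℕ) (hH : 1 ≤ H) (hq : 0 < q)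
    (hM : M = q / (8 * (n + 1) * H) + 1) (hmult : mult = 2 * H / q + 1)
    (hqH : q ^ (n + 2) ≤ H ^ (n + 3)) (X Bc : ℝ) (hBc : 0 < Bc) (δ : ℝ)
    (hδ : δ = if M = 1 then 0 else (M : ℝ))
    (h : X * ((M : ℝ) ^ (n + 1) / 2) ^ 2 ≤ (mult : ℝ) ^ (n + 1) *
      ((M : ℝ) ^ (n + 1) * (Bc * (q : ℝ) ^ n * q) +
        ((M : ℝ) ^ (n + 1)) ^ 2 * (Bc * (q : ℝ) ^ n * δ))) :
    X ≤ 4 * ((8 * ((n : ℝ) + 1) + 2) ^ (n + 1) + 1) * Bc * (H : ℝ) ^ (n + 1) := by
  have hden : 0 < 8 * (n + 1) * H := by positivity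
  have hM0 : 0 < M := by rw [hM]; exact Nat.succ_pos _
  have hMR : (0 : ℝ) < M := by exact_mod_cast hM0
  have hqR : (0 : ℝ) < q := by exact_mod_cast hq
  have hHR : (1 : ℝ) ≤ H := by exact_mod_cast hH
  have hM2 : q < M * (8 * (n + 1) * H) := by
    rw [hM, Nat.mul_comm]
    exact Nat.lt_mul_div_succ q hden
  -- first term
  have hmq : mult * q ≤ 2 * H + q := by
    rw [hmult, Nat.add_mul, Nat.one_mul]
    have := Nat.div_mul_le_self (2 * H) q
    omega
  have ht1 : (mult : ℝ) * q / M ≤ (8 * ((n : ℝ) + 1) + 2) * H := by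
    rw [div_le_iff₀ hMR]
    have h1 : (mult : ℝ) * q ≤ 2 * H + q := by exact_mod_cast hmq
    have h2 : (q : ℝ) ≤ M * (8 * (n + 1) * H) := by exact_mod_cast hM2.le
    have h3 : (1 : ℝ) ≤ M := by exact_mod_cast hM0
    nlinarith
  have ht1' : (mult : ℝ) ^ (n + 1) * ((q : ℝ) ^ n * q) / (M : ℝ) ^ (n + 1) ≤
      ((8 * ((n : ℝ) + 1) + 2)) ^ (n + 1) * (H : ℝ) ^ (n + 1) := by
    have h1 : (mult : ℝ) ^ (n + 1) * ((q : ℝ) ^ n * q) / (M : ℝ) ^ (n + 1) =
        ((mult : ℝ) * q / M) ^ (n + 1) := by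
      rw [div_pow, mul_pow, pow_succ (q : ℝ) n]
    rw [h1, ← mul_pow]
    exact pow_le_pow_left₀ (by positivity) ht1 _
  -- second term
  have ht2 : (mult : ℝ) ^ (n + 1) * ((q : ℝ) ^ n * δ) ≤ (H : ℝ) ^ (n + 1) := by
    by_cases hM1 : M = 1
    · rw [hδ, if_pos hM1]
      simp only [mul_zero]
      positivity
    · rw [hδ, if_neg hM1]
      have hge : 1 ≤ q / (8 * (n + 1) * H) := by omega
      have hqge : 8 * (n + 1) * H ≤ q := by
        have := (Nat.le_div_iff_mul_le hden).1 hge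
        omega
      have hqH2 : 2 * H < q := by nlinarith
      have hm1 : mult = 1 := by
        rw [hmult, Nat.div_eq_of_lt hqH2]
      have hMle : M * H ≤ q := by
        have h1 := Nat.div_mul_le_self q (8 * (n + 1) * H)
        have h2 : M ≤ 2 * (q / (8 * (n + 1) * H)) := by omega
        calc M * H ≤ 2 * (q / (8 * (n + 1) * H)) * H := Nat.mul_le_mul_right _ h2
          _ ≤ (q / (8 * (n + 1) * H)) * (8 * (n + 1) * H) := by
              have : 2 * H ≤ 8 * (n + 1) * H := by nlinarith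
              calc 2 * (q / (8 * (n + 1) * H)) * H = (q / (8 * (n + 1) * H)) * (2 * H) := by ring
                _ ≤ _ := Nat.mul_le_mul_left _ this
          _ ≤ q := h1
      have hq1 : q ^ (n + 1) ≤ H ^ (n + 2) := by
        by_contra hcon
        push Not at hcon
        have h1 : (H ^ (n + 2)) ^ (n + 2) < (q ^ (n + 1)) ^ (n + 2) :=
          Nat.pow_lt_pow_left hcon (by omega)
        have h2 : (q ^ (n + 1)) ^ (n + 2) ≤ (H ^ (n + 2)) ^ (n + 2) := by
          calc (q ^ (n + 1)) ^ (n + 2) = (q ^ (n + 2)) ^ (n + 1) := by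
                rw [← pow_mul, ← pow_mul, Nat.mul_comm]
            _ ≤ (H ^ (n + 3)) ^ (n + 1) := Nat.pow_le_pow_left hqH _
            _ = H ^ ((n + 3) * (n + 1)) := by rw [← pow_mul]
            _ ≤ H ^ ((n + 2) * (n + 2)) := Nat.pow_le_pow_right hH (by nlinarith)
            _ = (H ^ (n + 2)) ^ (n + 2) := by rw [← pow_mul]
        omega
      have hfin : q ^ n * M ≤ H ^ (n + 1) := by
        have h1 : (q ^ n * M) * H ≤ H ^ (n + 1) * H := by
          calc (q ^ n * M) * H = q ^ n * (M * H) := by ring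
            _ ≤ q ^ n * q := Nat.mul_le_mul_left _ hMle
            _ = q ^ (n + 1) := by ring
            _ ≤ H ^ (n + 2) := hq1
            _ = H ^ (n + 1) * H := by ring
        exact Nat.le_of_mul_le_mul_right h1 (by omega)
      rw [hm1, Nat.cast_one, one_pow, one_mul]
      exact_mod_cast hfin
  -- conclusion
  have hM2' : (0 : ℝ) < (M : ℝ) ^ (n + 1) := by positivity
  have h5 : X ≤ 4 * Bc * ((mult : ℝ) ^ (n + 1) * ((q : ℝ) ^ n * q) / (M : ℝ) ^ (n + 1) +
      (mult : ℝ) ^ (n + 1) * ((q : ℝ) ^ n * δ)) := by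
    have h6 : X * ((M : ℝ) ^ (n + 1) / 2) ^ 2 ≤
        4 * Bc * ((mult : ℝ) ^ (n + 1) * ((q : ℝ) ^ n * q) / (M : ℝ) ^ (n + 1) +
      (mult : ℝ) ^ (n + 1) * ((q : ℝ) ^ n * δ)) * ((M : ℝ) ^ (n + 1) / 2) ^ 2 := by
      refine h.trans (le_of_eq ?_)
      field_simp
      ring
    exact le_of_mul_le_mul_right h6 (by positivity)
  calc X ≤ _ := h5
    _ ≤ 4 * Bc * (((8 * ((n : ℝ) + 1) + 2)) ^ (n + 1) * (H : ℝ) ^ (n + 1) + (H : ℝ) ^ (n + 1)) := by
        gcongr
    _ = _ := by ring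

end BoxB1

open BoxB1 Finset in
/-- VW-B1: abstract form (only cones and hyperplane sections are used). -/
theorem box_abstract (n c : ℕ) : ∃ A B : ℝ, 0 < A ∧ 1 ≤ B ∧ ∀ (H : ℕ), 1 ≤ H →
    ∀ (P : Finset ℕ) (k : ℕ → ℕ) (S : ∀ p : ℕ, Set (Fin (n + 1) → ZMod p)),
      (∀ p ∈ P, p.Prime) →
      (∀ p ∈ P, ∀ v ∈ S p, ∀ t : ZMod p, t ≠ 0 → t • v ∈ S p) →
      (∀ p ∈ P, (S p).ncard * p ^ (k p) ≤ c * p ^ (n + 1)) →
      (∀ p ∈ P, ∀ w : Fin (n + 1) → ZMod p, w ≠ 0 →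
        {v ∈ S p | ∑ i, w i * v i = 0}.ncard * p ^ (k p) ≤ c * p ^ n) →
      (∏ p ∈ P, p) ^ (n + 2) ≤ H ^ (n + 3) →
      ({a ∈ (Box n H : Set (Fin (n + 1) → ℤ)) | ∀ p ∈ P, (fun i => (a i : ZMod p)) ∈ S p}.ncard : ℝ)
        ≤ A * B ^ P.card * (H : ℝ) ^ (n + 1) / ∏ p ∈ P, (p : ℝ) ^ (k p) := by
  classical
  refine ⟨4 * ((8 * ((n : ℝ) + 1) + 2) ^ (n + 1) + 1), 4 * c + 1, by positivity, ?_, ?_⟩
  · have : (0 : ℝ) ≤ c := Nat.cast_nonneg c
    linarith
  intro H hH P k S hP h1 h2 h3 h4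
  haveI hne : ∀ p : P, Fact (p : ℕ).Prime := fun p => ⟨hP p p.2⟩
  obtain ⟨α, l, hα1, hα2⟩ := exists_alpha P hP
  set q : ℕ := ∏ p ∈ P, p with hq
  have hq0 : 0 < q := Finset.prod_pos fun p hp => (hP p hp).pos
  have hden : 0 < 8 * (n + 1) * H := by positivity
  set M : ℕ := q / (8 * (n + 1) * H) + 1 with hM
  have hM1 : (n + 1) * (M - 1) * H * 8 ≤ q := by
    have h5 := Nat.div_mul_le_self q (8 * (n + 1) * H)
    calc (n + 1) * (M - 1) * H * 8 = (q / (8 * (n + 1) * H)) * (8 * (n + 1) * H) := by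
          rw [hM, Nat.add_sub_cancel]
          ring
      _ ≤ q := h5
  set A : Finset (Fin (n + 1) → ℤ) :=
    (Box n H).filter (fun a => ∀ p ∈ P, (fun i => (a i : ZMod p)) ∈ S p) with hA
  have hncard : {a ∈ (Box n H : Set (Fin (n + 1) → ℤ)) |
      ∀ p ∈ P, (fun i => (a i : ZMod p)) ∈ S p}.ncard = A.card := by
    rw [← Set.ncard_coe_finset]
    congr 1
    ext a
    simp [hA]
  have hmaps : ∀ a ∈ A, res P a ∈ SG P S := by
    intro a ha
    unfold SG
    rw [Fintype.mem_piFinset]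
    intro p
    simp only [SF, Finset.mem_filter, Finset.mem_univ, true_and]
    exact (Finset.mem_filter.1 ha).2 p p.2
  set mult : ℕ := 2 * H / q + 1 with hmult
  have hcount : (A.card : ℝ) * ((M : ℝ) ^ (n + 1) / 2) ^ 2 ≤
      (mult : ℝ) ^ (n + 1) * ∑ v ∈ SG P S, ‖EE P α M v‖ ^ 2 := by
    calc (A.card : ℝ) * ((M : ℝ) ^ (n + 1) / 2) ^ 2
        = ∑ _a ∈ A, ((M : ℝ) ^ (n + 1) / 2) ^ 2 := by rw [Finset.sum_const, nsmul_eq_mul]
      _ ≤ ∑ a ∈ A, ‖EE P α M (res P a)‖ ^ 2 := by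
          apply Finset.sum_le_sum
          intro a ha
          apply pow_le_pow_left₀ (by positivity)
          exact EE_ge P α hα2 H M (by rw [← hq]; exact hM1) a (Finset.mem_filter.1 ha).1
      _ = ∑ v ∈ SG P S, ∑ a ∈ A.filter (fun a => res P a = v), ‖EE P α M (res P a)‖ ^ 2 :=
          (Finset.sum_fiberwise_of_maps_to hmaps _).symm
      _ ≤ ∑ v ∈ SG P S, (mult : ℝ) ^ (n + 1) * ‖EE P α M v‖ ^ 2 := by
          apply Finset.sum_le_sum
          intro v _
          have h5 : ∑ a ∈ A.filter (fun a => res P a = v), ‖EE P α M (res P a)‖ ^ 2 =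
              ((A.filter (fun a => res P a = v)).card : ℝ) * ‖EE P α M v‖ ^ 2 := by
            rw [Finset.sum_congr rfl (g := fun _ => ‖EE P α M v‖ ^ 2)
              (fun a ha => by rw [(Finset.mem_filter.1 ha).2]), Finset.sum_const, nsmul_eq_mul]
          rw [h5]
          apply mul_le_mul_of_nonneg_right _ (by positivity)
          have h6 := card_fiber_le P H v (A.filter (fun a => res P a = v))
            (fun a ha => (Finset.mem_filter.1 (Finset.mem_filter.1 ha).1).1)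
            (fun a ha => (Finset.mem_filter.1 ha).2)
          rw [← hq, ← hmult] at h6
          exact_mod_cast h6
      _ = _ := by rw [← Finset.mul_sum]
  set Pk : ℝ := ∏ p ∈ P, (p : ℝ) ^ (k p) with hPk
  have hPk0 : 0 < Pk := Finset.prod_pos fun p hp => by
    have := (hP p hp).pos
    positivity
  set Bc : ℝ := (4 * (c : ℝ) + 1) ^ P.card with hBc
  have hBc0 : 0 < Bc := by positivity
  have hqc : (∏ p ∈ P, (p : ℝ)) = (q : ℝ) := by rw [hq]; push_cast; rfl
  set δ : ℝ := if M = 1 then 0 else (M : ℝ) with hδ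
  have hδ0 : 0 ≤ δ := by
    rw [hδ]
    split_ifs
    · exact le_rfl
    · positivity
  have hT0 : ∀ j ∈ JJ n M, ‖TT P S α (iv j - iv j)‖ * Pk ≤ Bc * (q : ℝ) ^ n * q := by
    intro j _
    have h5 := TT_bound P S α c k hα1 h1 h2 h3 (iv j - iv j)
    rw [← hPk, ← hBc, hqc] at h5
    refine h5.trans (le_of_eq ?_)
    congr 1
    rw [← hqc]
    apply Finset.prod_congr rfl
    intro p _
    rw [if_pos]
    intro i
    simp
  have hT1 : ∀ j ∈ JJ n M, ∀ j' ∈ JJ n M, j' ≠ j →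
      ‖TT P S α (iv j - iv j')‖ * Pk ≤ Bc * (q : ℝ) ^ n * δ := by
    intro j hj j' hj' hne'
    have h5 := TT_bound P S α c k hα1 h1 h2 h3 (iv j - iv j')
    rw [← hPk, ← hBc, hqc] at h5
    refine h5.trans ?_
    apply mul_le_mul_of_nonneg_left _ (by positivity)
    have hlt : ∀ i, j i < M := fun i => Finset.mem_range.1 (Fintype.mem_piFinset.1 hj i)
    have hlt' : ∀ i, j' i < M := fun i => Finset.mem_range.1 (Fintype.mem_piFinset.1 hj' i)
    have hMne : M ≠ 1 := by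
      intro h6
      apply hne'
      funext i
      have := hlt i
      have := hlt' i
      omega
    rw [hδ, if_neg hMne]
    apply prod_dvd_le P hP
    · intro h6
      apply hne'
      funext i
      have h7 := congrFun h6 i
      simp only [Pi.sub_apply, Pi.zero_apply, iv] at h7
      omega
    · intro i
      have := hlt i
      have := hlt' i
      simp only [Pi.sub_apply, iv]
      rw [abs_lt]
      omega
  have hsum : (∑ j ∈ JJ n M, ∑ j' ∈ JJ n M, ‖TT P S α (iv j - iv j')‖) * Pk ≤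
      (M : ℝ) ^ (n + 1) * (Bc * (q : ℝ) ^ n * q) +
        ((M : ℝ) ^ (n + 1)) ^ 2 * (Bc * (q : ℝ) ^ n * δ) := by
    have hY : 0 ≤ Bc * (q : ℝ) ^ n * δ := by positivity
    have hX : 0 ≤ Bc * (q : ℝ) ^ n * q := by positivity
    have h5 : ∀ j ∈ JJ n M, (∑ j' ∈ JJ n M, ‖TT P S α (iv j - iv j')‖) * Pk ≤
        Bc * (q : ℝ) ^ n * q + (M : ℝ) ^ (n + 1) * (Bc * (q : ℝ) ^ n * δ) := by
      intro j hj
      rw [Finset.sum_mul]
      calc ∑ j' ∈ JJ n M, ‖TT P S α (iv j - iv j')‖ * Pk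
          ≤ ∑ j' ∈ JJ n M, ((if j' = j then Bc * (q : ℝ) ^ n * q else 0) +
              Bc * (q : ℝ) ^ n * δ) := by
            apply Finset.sum_le_sum
            intro j' hj'
            by_cases h6 : j' = j
            · rw [if_pos h6, h6]
              have := hT0 j hj
              linarith
            · rw [if_neg h6, zero_add]
              exact hT1 j hj j' hj' h6
        _ = _ := by
            rw [Finset.sum_add_distrib, Finset.sum_ite_eq' (JJ n M) j, if_pos hj,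
              Finset.sum_const, card_JJ, nsmul_eq_mul]
            push_cast
            ring
    rw [Finset.sum_mul]
    calc ∑ j ∈ JJ n M, (∑ j' ∈ JJ n M, ‖TT P S α (iv j - iv j')‖) * Pk
        ≤ ∑ _j ∈ JJ n M, (Bc * (q : ℝ) ^ n * q +
          (M : ℝ) ^ (n + 1) * (Bc * (q : ℝ) ^ n * δ)) := Finset.sum_le_sum h5
      _ = _ := by
          rw [Finset.sum_const, card_JJ, nsmul_eq_mul]
          push_cast
          ring
  rw [hncard, le_div_iff₀ hPk0]
  apply final_arith n H q M mult hH hq0 hM hmult h4 _ Bc hBc0 δ hδ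
  calc (A.card : ℝ) * Pk * ((M : ℝ) ^ (n + 1) / 2) ^ 2
      = ((A.card : ℝ) * ((M : ℝ) ^ (n + 1) / 2) ^ 2) * Pk := by ring
    _ ≤ ((mult : ℝ) ^ (n + 1) * ∑ v ∈ SG P S, ‖EE P α M v‖ ^ 2) * Pk := by gcongr
    _ ≤ ((mult : ℝ) ^ (n + 1) *
        ∑ j ∈ JJ n M, ∑ j' ∈ JJ n M, ‖TT P S α (iv j - iv j')‖) * Pk := by
        gcongr
        exact sum_sq_EE P S α M
    _ = (mult : ℝ) ^ (n + 1) *
        ((∑ j ∈ JJ n M, ∑ j' ∈ JJ n M, ‖TT P S α (iv j - iv j')‖) * Pk) := by ring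
    _ ≤ _ := by gcongr

end Pool.Agent.Helper12.VW
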