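import Pool.Agent.Helper12.VW.Defs

/-!
# VW-B1, first part: exponential sums over cones modulo a prime
-/

set_option autoImplicit false

open Polynomial NumberField

namespace Pool.Agent.Helper12.VW

namespace BoxB1

open Finset

variable {N : ℕ}

/-- Exponential sum over a finite set of vectors. -/
noncomputable def tS (p : ℕ) [NeZero p] (S : Finset (Fin N → ZMod p)) (w : Fin N → ZMod p) : ℂ :=
  ∑ v ∈ S, ZMod.stdAddChar (∑ i, w i * v i)

theorem tS_zero (p : ℕ) [NeZero p] (S : Finset (Fin N → ZMod p)) : tS p S 0 = S.card := by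
  unfold tS
  simp

theorem tS_smul (p : ℕ) [Fact p.Prime] (S : Finset (Fin N → ZMod p))
    (hS : ∀ v ∈ S, ∀ t : ZMod p, t ≠ 0 → t • v ∈ S) (t : ZMod p) (ht : t ≠ 0)
    (w : Fin N → ZMod p) : tS p S (t • w) = tS p S w := by
  unfold tS
  refine Finset.sum_nbij' (fun v => t • v) (fun v => t⁻¹ • v) ?_ ?_ ?_ ?_ ?_
  · intro v hv
    exact hS v hv t ht
  · intro v hv
    exact hS v hv t⁻¹ (inv_ne_zero ht)
  · intro v _
    rw [smul_smul, inv_mul_cancel₀ ht, one_smul]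
  · intro v _
    rw [smul_smul, mul_inv_cancel₀ ht, one_smul]
  · intro v _
    congr 1
    apply Finset.sum_congr rfl
    intro i _
    simp only [Pi.smul_apply, smul_eq_mul]
    ring

theorem sum_tS (p : ℕ) [Fact p.Prime] (S : Finset (Fin N → ZMod p)) (w : Fin N → ZMod p) :
    ∑ t : ZMod p, tS p S (t • w) = (p : ℂ) * (S.filter (fun v => ∑ i, w i * v i = 0)).card := by
  classical
  unfold tS
  rw [Finset.sum_comm]
  have h : ∀ v ∈ S, ∑ t : ZMod p, ZMod.stdAddChar (∑ i, (t • w) i * v i) =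
      if ∑ i, w i * v i = 0 then (p : ℂ) else 0 := by
    intro v _
    have h1 : ∀ t : ZMod p, ∑ i, (t • w) i * v i = t * ∑ i, w i * v i := by
      intro t
      rw [Finset.mul_sum]
      apply Finset.sum_congr rfl
      intro i _
      simp only [Pi.smul_apply, smul_eq_mul]
      ring
    simp only [h1]
    rw [AddChar.sum_mulShift _ (ZMod.isPrimitive_stdAddChar p), ZMod.card]
    split_ifs <;> simp
  rw [Finset.sum_congr rfl h, ← Finset.sum_filter, Finset.sum_const, nsmul_eq_mul]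
  ring

theorem tS_eq (p : ℕ) [Fact p.Prime] (S : Finset (Fin N → ZMod p))
    (hS : ∀ v ∈ S, ∀ t : ZMod p, t ≠ 0 → t • v ∈ S) (w : Fin N → ZMod p) :
    ((p : ℂ) - 1) * tS p S w =
      (p : ℂ) * (S.filter (fun v => ∑ i, w i * v i = 0)).card - S.card := by
  classical
  have h1 := sum_tS p S w
  have h2 : ∑ t : ZMod p, tS p S (t • w) =
      tS p S ((0 : ZMod p) • w) + ∑ t ∈ (univ : Finset (ZMod p)).erase 0, tS p S (t • w) :=
    (Finset.add_sum_erase _ _ (Finset.mem_univ 0)).symm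
  have h3 : ∑ t ∈ (univ : Finset (ZMod p)).erase 0, tS p S (t • w) =
      ((p : ℂ) - 1) * tS p S w := by
    rw [Finset.sum_congr rfl (fun t ht => tS_smul p S hS t (Finset.ne_of_mem_erase ht) w),
      Finset.sum_const, Finset.card_erase_of_mem (Finset.mem_univ _), Finset.card_univ, ZMod.card,
      nsmul_eq_mul, Nat.cast_sub (Fact.out : p.Prime).one_le]
    simp
  rw [h2, h3, zero_smul, tS_zero] at h1
  rw [← h1]
  ring

theorem norm_tS_le (p : ℕ) [Fact p.Prime] (S : Finset (Fin N → ZMod p))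
    (hS : ∀ v ∈ S, ∀ t : ZMod p, t ≠ 0 → t • v ∈ S) (w : Fin N → ZMod p) :
    ((p : ℝ) - 1) * ‖tS p S w‖ ≤
      (p : ℝ) * (S.filter (fun v => ∑ i, w i * v i = 0)).card + S.card := by
  have h := congrArg norm (tS_eq p S hS w)
  rw [norm_mul] at h
  have hp : (1 : ℝ) ≤ p := by exact_mod_cast (Fact.out : p.Prime).one_le
  have h1 : ‖(p : ℂ) - 1‖ = (p : ℝ) - 1 := by
    have : (p : ℂ) - 1 = ((p - 1 : ℝ) : ℂ) := by push_cast; ring
    rw [this, Complex.norm_real, Real.norm_eq_abs, abs_of_nonneg (by linarith)]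
  rw [h1] at h
  rw [h]
  refine (norm_sub_le _ _).trans ?_
  rw [norm_mul, Complex.norm_natCast, Complex.norm_natCast, Complex.norm_natCast]

/-- The local bound. -/
theorem local_bound (n c p k : ℕ) [Fact p.Prime] (S : Finset (Fin (n + 1) → ZMod p))
    (hS : ∀ v ∈ S, ∀ t : ZMod p, t ≠ 0 → t • v ∈ S)
    (h1 : S.card * p ^ k ≤ c * p ^ (n + 1))
    (h2 : ∀ w : Fin (n + 1) → ZMod p, w ≠ 0 →
      (S.filter (fun v => ∑ i, w i * v i = 0)).card * p ^ k ≤ c * p ^ n)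
    (w : Fin (n + 1) → ZMod p) [Decidable (w = 0)] :
    ‖tS p S w‖ * (p : ℝ) ^ k ≤ (4 * c + 1) * (p : ℝ) ^ n * (if w = 0 then (p : ℝ) else 1) := by
  have hp2 : (2 : ℝ) ≤ p := by exact_mod_cast (Fact.out : p.Prime).two_le
  have hc : (0 : ℝ) ≤ c := Nat.cast_nonneg c
  have h1' : (S.card : ℝ) * (p : ℝ) ^ k ≤ c * (p : ℝ) ^ (n + 1) := by exact_mod_cast h1
  by_cases hw : w = 0
  · rw [if_pos hw, hw, tS_zero, Complex.norm_natCast]
    calc (S.card : ℝ) * (p : ℝ) ^ k ≤ c * (p : ℝ) ^ (n + 1) := h1'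
      _ = c * (p : ℝ) ^ n * p := by ring
      _ ≤ (4 * c + 1) * (p : ℝ) ^ n * p := by
          gcongr
          linarith
  · rw [if_neg hw, mul_one]
    have h2' : ((S.filter (fun v => ∑ i, w i * v i = 0)).card : ℝ) * (p : ℝ) ^ k ≤
        c * (p : ℝ) ^ n := by exact_mod_cast h2 w hw
    have h3 := norm_tS_le p S hS w
    have hpk : (0 : ℝ) < (p : ℝ) ^ k := by positivity
    have hpn : (0 : ℝ) < (p : ℝ) ^ n := by positivity
    have h4 : ((p : ℝ) - 1) * (‖tS p S w‖ * (p : ℝ) ^ k) ≤ 2 * c * p * (p : ℝ) ^ n := by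
      calc ((p : ℝ) - 1) * (‖tS p S w‖ * (p : ℝ) ^ k)
          = (((p : ℝ) - 1) * ‖tS p S w‖) * (p : ℝ) ^ k := by ring
        _ ≤ ((p : ℝ) * (S.filter (fun v => ∑ i, w i * v i = 0)).card + S.card) * (p : ℝ) ^ k := by
            gcongr
        _ = p * ((S.filter (fun v => ∑ i, w i * v i = 0)).card * (p : ℝ) ^ k) +
            S.card * (p : ℝ) ^ k := by ring
        _ ≤ p * (c * (p : ℝ) ^ n) + c * (p : ℝ) ^ (n + 1) := by gcongr
        _ = 2 * c * p * (p : ℝ) ^ n := by ring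
    have h5 : (0 : ℝ) < (p : ℝ) - 1 := by linarith
    have h6 : ((p : ℝ) - 1) * (‖tS p S w‖ * (p : ℝ) ^ k) ≤
        ((p : ℝ) - 1) * (4 * c * (p : ℝ) ^ n) := by
      refine h4.trans ?_
      have : (p : ℝ) ≤ 2 * ((p : ℝ) - 1) := by linarith
      calc 2 * c * (p : ℝ) * (p : ℝ) ^ n ≤ 2 * c * (2 * ((p : ℝ) - 1)) * (p : ℝ) ^ n := by gcongr
        _ = ((p : ℝ) - 1) * (4 * c * (p : ℝ) ^ n) := by ring
    have h7 := le_of_mul_le_mul_left h6 h5
    calc ‖tS p S w‖ * (p : ℝ) ^ k ≤ 4 * c * (p : ℝ) ^ n := h7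
      _ ≤ (4 * c + 1) * (p : ℝ) ^ n := by gcongr; linarith

end BoxB1

end Pool.Agent.Helper12.VW
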